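import Mathlib

set_option autoImplicit false

/-!
# Sampling in the convex hull of a class of sets

A combination `f = ∑ b i * 1_{F i}`, `∑ |b i| ≤ M`, of indicator functions of sets of a class is
within `η` in `L¹` of a combination of `m = m(M, η)` indicator functions of sets of the class.
-/

namespace Pool.Agent.K4H98.Hull

open Finset

variable {X : Type} [Fintype X] [DecidableEq X]

/-- combinations of indicator functions of the sets of the class `P` with sum of coefficients at
most `M` -/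
def InHull (P : Finset X → Prop) (M : ℝ) (f : X → ℝ) : Prop :=
  ∃ (n : ℕ) (F : Fin n → Finset X) (b : Fin n → ℝ), (∀ i, P (F i)) ∧ ∑ i, |b i| ≤ M ∧
    ∀ A, f A = ∑ i, if A ∈ F i then b i else 0

lemma InHull.mono {P Q : Finset X → Prop} (hPQ : ∀ F, P F → Q F) {M M' : ℝ} (hM : M ≤ M')
    {f : X → ℝ} (h : InHull P M f) : InHull Q M' f := by
  obtain ⟨n, F, b, h1, h2, h3⟩ := h
  exact ⟨n, F, b, fun i => hPQ _ (h1 i), h2.trans hM, h3⟩

lemma InHull.abs_le {P : Finset X → Prop} {M : ℝ} {f : X → ℝ} (h : InHull P M f) (A : X) :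
    |f A| ≤ M := by
  obtain ⟨n, F, b, -, h2, h3⟩ := h
  rw [h3]
  refine (abs_sum_le_sum_abs _ _).trans (le_trans (sum_le_sum fun i _ => ?_) h2)
  split_ifs
  · exact le_rfl
  · rw [abs_zero]
    exact abs_nonneg _

lemma InHull.nonneg {P : Finset X → Prop} {M : ℝ} {f : X → ℝ} (h : InHull P M f) : 0 ≤ M := by
  obtain ⟨n, F, b, -, h2, -⟩ := h
  exact le_trans (sum_nonneg fun _ _ => abs_nonneg _) h2

lemma step {P : Finset X → Prop} (h0 : P ∅) {M : ℝ} {f : X → ℝ} (hf : InHull P M f)
    (h : X → ℝ) : ∃ (F : Finset X) (s : ℝ), P F ∧ |s| ≤ M ∧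
      ∑ A, h A * f A ≤ ∑ A, h A * (if A ∈ F then s else 0) := by
  have hM0 := hf.nonneg
  obtain ⟨n, F, b, h1, h2, h3⟩ := hf
  by_contra hcon
  push Not at hcon
  set a : Fin n → ℝ := fun i => ∑ A, h A * (if A ∈ F i then 1 else 0) with ha
  set c : ℝ := ∑ A, h A * f A with hc
  have h4 : c = ∑ i, b i * a i := by
    rw [hc]
    simp only [h3, ha, mul_sum]
    rw [sum_comm]
    refine sum_congr rfl fun i _ => sum_congr rfl fun A _ => ?_
    split_ifs <;> ring
  have h5 : ∀ i s, ∑ A, h A * (if A ∈ F i then s else 0) = s * a i := by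
    intro i s
    simp only [ha, mul_sum]
    refine sum_congr rfl fun A _ => ?_
    split_ifs <;> ring
  have h6 : 0 < c := by
    have := hcon ∅ 0 h0 (by simpa using hM0)
    simpa using this
  have h7 : ∀ i, M * |a i| < c := by
    intro i
    rcases le_total 0 (a i) with h | h
    · have := hcon (F i) M (h1 i) (by rw [abs_of_nonneg hM0])
      rw [h5] at this
      rw [abs_of_nonneg h]
      exact this
    · have := hcon (F i) (-M) (h1 i) (by rw [abs_neg, abs_of_nonneg hM0])
      rw [h5] at this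
      rw [abs_of_nonpos h]
      linarith
  by_cases hb : ∀ i, b i = 0
  · rw [h4] at h6
    simp [hb] at h6
  · push Not at hb
    obtain ⟨i, hi⟩ := hb
    have h8 : M * c < ∑ j, |b j| * c := by
      rw [h4, mul_sum, ← h4]
      refine lt_of_le_of_lt (b := ∑ j, |b j| * (M * |a j|)) (sum_le_sum fun j _ => ?_) ?_
      · have : b j * a j ≤ |b j| * |a j| := by
          rw [← abs_mul]
          exact le_abs_self _
        calc M * (b j * a j) ≤ M * (|b j| * |a j|) := mul_le_mul_of_nonneg_left this hM0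
          _ = |b j| * (M * |a j|) := by ring
      · refine sum_lt_sum (fun j _ => mul_le_mul_of_nonneg_left (h7 j).le (abs_nonneg _))
          ⟨i, mem_univ _, mul_lt_mul_of_pos_left (h7 i) (abs_pos.2 hi)⟩
    rw [← sum_mul] at h8
    have h9 := mul_le_mul_of_nonneg_right h2 h6.le
    linarith

lemma sample {P : Finset X → Prop} (h0 : P ∅) {M : ℝ} {f : X → ℝ} (hf : InHull P M f) (m : ℕ) :
    ∃ (F : Fin m → Finset X) (s : Fin m → ℝ), (∀ j, P (F j)) ∧ (∀ j, |s j| ≤ M) ∧
      ∑ A, ((m : ℝ) * f A - ∑ j, if A ∈ F j then s j else 0) ^ 2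
        ≤ 4 * M ^ 2 * m * Fintype.card X := by
  have hM0 := hf.nonneg
  induction m with
  | zero => exact ⟨Fin.elim0, Fin.elim0, fun j => j.elim0, fun j => j.elim0, by simp⟩
  | succ m ih =>
    obtain ⟨F, s, h1, h2, h3⟩ := ih
    obtain ⟨F', s', h4, h5, h6⟩ := step h0 hf
      (fun A => (m : ℝ) * f A - ∑ j, if A ∈ F j then s j else 0)
    refine ⟨Fin.cons F' F, Fin.cons s' s, fun j => ?_, fun j => ?_, ?_⟩
    · refine Fin.cases ?_ (fun j => ?_) j
      · exact h4
      · exact h1 j
    · refine Fin.cases ?_ (fun j => ?_) j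
      · exact h5
      · exact h2 j
    · have h7 : ∀ A, (((m + 1 : ℕ) : ℝ) * f A - ∑ j : Fin (m + 1),
          if A ∈ (Fin.cons F' F : Fin (m + 1) → Finset X) j
            then (Fin.cons s' s : Fin (m + 1) → ℝ) j else 0) ^ 2
          = ((m : ℝ) * f A - ∑ j, if A ∈ F j then s j else 0) ^ 2
            + 2 * (((m : ℝ) * f A - ∑ j, if A ∈ F j then s j else 0) * f A
              - ((m : ℝ) * f A - ∑ j, if A ∈ F j then s j else 0) * (if A ∈ F' then s' else 0))
            + (f A - if A ∈ F' then s' else 0) ^ 2 := by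
        intro A
        rw [Fin.sum_univ_succ]
        simp only [Fin.cons_zero, Fin.cons_succ]
        push_cast
        ring
      rw [sum_congr rfl fun A _ => h7 A, sum_add_distrib, sum_add_distrib, ← mul_sum,
        sum_sub_distrib]
      have h8 : ∑ A, (f A - if A ∈ F' then s' else 0) ^ 2 ≤ 4 * M ^ 2 * Fintype.card X := by
        have : ∀ A ∈ (univ : Finset X), (f A - if A ∈ F' then s' else 0) ^ 2 ≤ 4 * M ^ 2 := by
          intro A _
          have h9 := hf.abs_le A
          have h10 : |(if A ∈ F' then s' else 0)| ≤ M := by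
            split_ifs
            · exact h5
            · simpa using hM0
          rw [_root_.abs_le] at h9 h10
          have h11 : |f A - if A ∈ F' then s' else 0| ≤ 2 * M := by
            rw [_root_.abs_le]
            constructor <;> linarith [h9.1, h9.2, h10.1, h10.2]
          calc (f A - if A ∈ F' then s' else 0) ^ 2 = |f A - if A ∈ F' then s' else 0| ^ 2 :=
                (sq_abs _).symm
            _ ≤ (2 * M) ^ 2 := pow_le_pow_left₀ (abs_nonneg _) h11 2
            _ = 4 * M ^ 2 := by ring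
        refine (sum_le_sum this).trans ?_
        rw [sum_const, card_univ, nsmul_eq_mul]
        exact le_of_eq (by ring)
      push_cast
      linarith

lemma sample_l1 {P : Finset X → Prop} (h0 : P ∅) {M η : ℝ} (hη : 0 < η) {m : ℕ} (hm : 1 ≤ m)
    (hmM : 4 * M ^ 2 ≤ η ^ 2 * m) {f : X → ℝ} (hf : InHull P M f) :
    ∃ (F : Fin m → Finset X) (s : Fin m → ℝ), (∀ j, P (F j)) ∧ (∀ j, |s j| ≤ M) ∧
      ∑ A, |f A - (∑ j, if A ∈ F j then s j else 0) / m| ≤ η * Fintype.card X := by
  obtain ⟨F, s, h1, h2, h3⟩ := sample h0 hf m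
  refine ⟨F, s, h1, h2, ?_⟩
  have hm0 : (0 : ℝ) < m := by exact_mod_cast hm
  set u : X → ℝ := fun A => f A - (∑ j, if A ∈ F j then s j else 0) / m with hu
  have h4 : ∑ A, (u A) ^ 2 ≤ η ^ 2 * Fintype.card X := by
    have h5 : ∀ A, ((m : ℝ) * f A - ∑ j, if A ∈ F j then s j else 0) ^ 2 = m ^ 2 * (u A) ^ 2 := by
      intro A
      rw [hu]
      simp only
      field_simp
    rw [sum_congr rfl fun A _ => h5 A, ← mul_sum] at h3
    have h6 : (0 : ℝ) < m ^ 2 := by positivity
    have h7 : 4 * M ^ 2 * m * Fintype.card X ≤ m ^ 2 * (η ^ 2 * Fintype.card X) := by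
      calc 4 * M ^ 2 * m * Fintype.card X ≤ (η ^ 2 * m) * m * Fintype.card X := by
            gcongr
        _ = _ := by ring
    exact le_of_mul_le_mul_left (h3.trans h7) h6
  have h5 : (∑ A, |u A|) ^ 2 ≤ (η * Fintype.card X) ^ 2 := by
    have h6 := sum_mul_sq_le_sq_mul_sq (univ : Finset X) (fun A => |u A|) (fun _ => (1 : ℝ))
    simp only [mul_one, one_pow, sum_const, card_univ, nsmul_eq_mul, sq_abs] at h6
    refine h6.trans ?_
    calc (∑ A, u A ^ 2) * (Fintype.card X : ℝ) ≤ (η ^ 2 * Fintype.card X) * Fintype.card X := by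
          gcongr
      _ = _ := by ring
  have h6 : 0 ≤ η * Fintype.card X := by positivity
  exact abs_le_of_sq_le_sq' h5 h6 |>.2

end Pool.Agent.K4H98.Hull
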