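import Mathlib
import Pool.Agent.TH484.PH.Crit
import Pool.Agent.K4H98.Hull.Samp

set_option autoImplicit false

/-!
# Boolean combinations of structured families and functions constant on the atoms
-/

namespace Pool.Agent.K4H98.Hull

open Finset Pool.Agent.TH484.PH Pool.Agent.H720R3

lemma reg_zero {E : Type} [DecidableEq E] (k : ℕ) : Reg k (fun _ : Finset E => (0 : ℝ)) := by
  induction k with
  | zero => exact Or.inl fun _ => le_rfl
  | succ k ih =>
    intro e
    have : diff e (fun _ : Finset E => (0 : ℝ)) = fun _ => 0 := by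
      funext A
      simp [diff]
    rw [this]
    exact ih

lemma structured_of_true {D k r : ℕ} {G : Type} [AddCommGroup G] {d N : ℕ} (p : Prop)
    [Decidable p] : StructuredF D (k + 1) r G
      (univ.filter fun _ : Finset (Fin d → Fin N) => p) := by
  refine ⟨fun _ _ => 0, fun _ => 0, fun _ _ => p, fun _ => ⟨1, le_rfl, by omega, reg_zero 1⟩,
    fun T hT => (hT rfl).elim, fun A => ?_⟩
  rw [mem_filter]
  exact ⟨fun h => h.2, fun h => ⟨mem_univ _, h⟩⟩

lemma structured_mono {D k r : ℕ} {G : Type} [AddCommGroup G] {d N : ℕ}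
    {F : Finset (Finset (Fin d → Fin N))} (hF : StructuredF D k r G F) :
    StructuredF D (k + 1) r G F := by
  obtain ⟨h, c, R, h1, h2, h3⟩ := hF
  refine ⟨h, c, R, fun i => ?_, h2, h3⟩
  obtain ⟨j, h4, h5, h6⟩ := h1 i
  exact ⟨j, h4, by omega, h6⟩

lemma poly_pi {E G J : Type} [AddCommGroup G] (D : ℕ) (c : J → Finset E → G) (A : Finset E)
    (j : J) : poly D (fun T j => c j T) A j = poly D (c j) A := by
  unfold poly
  rw [Finset.sum_apply]

lemma combine {D k r : ℕ} {G J : Type} [AddCommGroup G] [Fintype J] {d N : ℕ}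
    (F : J → Finset (Finset (Fin d → Fin N))) (hF : ∀ j, StructuredF D k r G (F j))
    (P : (J → Prop) → Prop) (F' : Finset (Finset (Fin d → Fin N)))
    (hF' : ∀ A, A ∈ F' ↔ P (fun j => A ∈ F j)) :
    StructuredF D k (Fintype.card J * r) (J → G) F' := by
  classical
  choose h c R h1 h2 h3 using hF
  set e := Fintype.equivFin J with he
  refine ⟨fun i => h (e.symm (finProdFinEquiv.symm i).1) (finProdFinEquiv.symm i).2,
    fun T j => c j T, fun a g => P fun j => R j (fun i => a (finProdFinEquiv (e j, i))) (g j),
    fun i => h1 _ _, fun T hT => ?_, fun A => ?_⟩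
  · have : ∃ j, c j T ≠ 0 := by
      by_contra hcon
      push Not at hcon
      exact hT (funext hcon)
    obtain ⟨j, hj⟩ := this
    exact h2 j T hj
  · rw [hF']
    have : (fun j => A ∈ F j) = fun j => R j (fun i => 0 < h (e.symm (finProdFinEquiv.symm
        (finProdFinEquiv (e j, i))).1) (finProdFinEquiv.symm (finProdFinEquiv (e j, i))).2 A)
        (poly D (fun T j => c j T) A j) := by
      funext j
      rw [poly_pi]
      have h4 : (fun i => 0 < h (e.symm (finProdFinEquiv.symm (finProdFinEquiv (e j, i))).1)
          (finProdFinEquiv.symm (finProdFinEquiv (e j, i))).2 A) = fun i => 0 < h j i A := by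
        funext i
        rw [Equiv.symm_apply_apply]
        simp only [Equiv.symm_apply_apply]
      rw [h4]
      exact propext (h3 j A)
    rw [this]

/-- the sum over a family of a function which is constant on the atoms -/
lemma sum_atoms {X J : Type} [Fintype X] [DecidableEq X] [Fintype J] [DecidableEq J]
    (F : J → Finset X) (W : (J → Bool) → ℝ) (S : Finset X) :
    ∑ A ∈ S, W (fun j => decide (A ∈ F j))
      = ∑ σ : J → Bool, W σ * (((univ.filter fun A => (fun j => decide (A ∈ F j)) = σ) ∩ S).card : ℝ)
      := by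
  classical
  rw [← sum_fiberwise S (fun A => (fun j => decide (A ∈ F j)))
    (fun A => W (fun j => decide (A ∈ F j)))]
  refine sum_congr rfl fun σ _ => ?_
  have h1 : ∀ A ∈ S.filter (fun A => (fun j => decide (A ∈ F j)) = σ),
      W (fun j => decide (A ∈ F j)) = W σ := by
    intro A hA
    rw [(mem_filter.1 hA).2]
  rw [sum_congr rfl h1, sum_const, nsmul_eq_mul, mul_comm]
  congr 3
  ext A
  simp only [mem_filter, mem_inter, mem_univ, true_and]
  tauto

end Pool.Agent.K4H98.Hull
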