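import Mathlib
import Pool.Agent.K4H98.Hull.Atoms

set_option autoImplicit false

/-!
# Weights `φ (f₁ A, …, f_s A)` with `fᵢ` in the hull of the structured families
-/

namespace Pool.Agent.K4H98.Hull

open Finset Pool.Agent.TH484.PH Pool.Agent.H720R3

lemma card_pw (d N : ℕ) :
    ((Fintype.card (Finset (Fin d → Fin N)) : ℕ) : ℝ) = 2 ^ (N ^ d) := by
  rw [Fintype.card_finset]
  simp

/-- approximation by a function constant on the atoms of `s * m` structured families -/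
lemma core {D k r s : ℕ} {G : Type} [AddCommGroup G] {M K η : ℝ} (hM : 0 ≤ M) (hη : 0 < η)
    {m : ℕ} (hm : 1 ≤ m) (hmM : 4 * M ^ 2 ≤ η ^ 2 * m) {d N : ℕ}
    (f : Fin s → Finset (Fin d → Fin N) → ℝ) (hf : ∀ i, InHull (StructuredF D k r G) M (f i))
    (φ : (Fin s → ℝ) → ℝ) (hφ : ∀ x y, |φ x - φ y| ≤ K * ∑ i, |x i - y i|) (hφ0 : |φ 0| ≤ K) :
    ∃ (F : Fin s × Fin m → Finset (Finset (Fin d → Fin N))) (W : (Fin s × Fin m → Bool) → ℝ),
      (∀ j, StructuredF D (k + 1) r G (F j)) ∧ (∀ σ, |W σ| ≤ K * (1 + s * M)) ∧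
      ((∀ x, 0 ≤ φ x) → ∀ σ, 0 ≤ W σ) ∧
      ∑ A, |φ (fun i => f i A) - W (fun j => decide (A ∈ F j))| ≤ K * (s * η) * 2 ^ (N ^ d) := by
  classical
  have hK : 0 ≤ K := (abs_nonneg _).trans hφ0
  have h0 : StructuredF D (k + 1) r G (∅ : Finset (Finset (Fin d → Fin N))) := by
    have := structured_of_true (D := D) (k := k) (r := r) (G := G) (d := d) (N := N) False
    rwa [filter_false] at this
  have hm0 : (0 : ℝ) < m := by exact_mod_cast hm
  choose F t h1 h2 h3 using fun i => sample_l1 (X := Finset (Fin d → Fin N)) h0 hη hm hmM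
    ((hf i).mono (fun F hF => structured_mono hF) le_rfl)
  set g : (Fin s × Fin m → Bool) → Fin s → ℝ := fun σ i =>
    (∑ j, if σ (i, j) then t i j else 0) / m with hg
  have hgM : ∀ σ i, |g σ i| ≤ M := by
    intro σ i
    rw [hg]
    simp only
    rw [abs_div, abs_of_pos hm0, div_le_iff₀ hm0]
    refine (abs_sum_le_sum_abs _ _).trans ?_
    have : ∀ j ∈ (univ : Finset (Fin m)), |(if σ (i, j) then t i j else 0 : ℝ)| ≤ M := by
      intro j _
      split_ifs
      · exact h2 i j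
      · simpa using hM
    refine (sum_le_sum this).trans ?_
    rw [sum_const, card_univ, Fintype.card_fin, nsmul_eq_mul, mul_comm]
  refine ⟨fun j => F j.1 j.2, fun σ => φ (g σ), fun j => h1 _ _, fun σ => ?_,
    fun h σ => h _, ?_⟩
  · have h4 := hφ (g σ) 0
    have h5 : ∑ i, |g σ i - (0 : Fin s → ℝ) i| ≤ s * M := by
      have : ∀ i ∈ (univ : Finset (Fin s)), |g σ i - (0 : Fin s → ℝ) i| ≤ M := by
        intro i _
        rw [Pi.zero_apply, sub_zero]
        exact hgM σ i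
      refine (sum_le_sum this).trans ?_
      rw [sum_const, card_univ, Fintype.card_fin, nsmul_eq_mul]
    have h6 : |φ (g σ)| ≤ |φ (g σ) - φ 0| + |φ 0| := by
      have := abs_add_le (φ (g σ) - φ 0) (φ 0)
      rwa [sub_add_cancel] at this
    have h7 := mul_le_mul_of_nonneg_left h5 hK
    linarith
  · have h4 : ∀ A ∈ (univ : Finset (Finset (Fin d → Fin N))),
        |φ (fun i => f i A) - φ (g (fun j => decide (A ∈ F j.1 j.2)))|
          ≤ K * ∑ i, |f i A - (∑ j, if A ∈ F i j then t i j else 0) / m| := by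
      intro A _
      refine (hφ _ _).trans (le_of_eq ?_)
      congr 1
      refine sum_congr rfl fun i _ => ?_
      simp only [hg, decide_eq_true_eq]
    refine (sum_le_sum h4).trans ?_
    rw [← mul_sum, sum_comm, mul_assoc]
    refine mul_le_mul_of_nonneg_left ?_ hK
    refine (sum_le_sum fun i _ => h3 i).trans ?_
    rw [sum_const, card_univ, Fintype.card_fin, nsmul_eq_mul, card_pw, mul_assoc]

/-- the difference between the weights of `S` and `ρ` times the total weights -/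
lemma diff_le {X : Type} [Fintype X] [DecidableEq X] (S : Finset X) (w w' : X → ℝ) (ρ B : ℝ)
    (h : ∑ A, |w A - w' A| ≤ B) :
    |(∑ A ∈ S, w A - ρ * ∑ A, w A) - (∑ A ∈ S, w' A - ρ * ∑ A, w' A)| ≤ (1 + |ρ|) * B := by
  have h1 : (∑ A ∈ S, w A - ρ * ∑ A, w A) - (∑ A ∈ S, w' A - ρ * ∑ A, w' A)
      = ∑ A ∈ S, (w A - w' A) - ρ * ∑ A, (w A - w' A) := by
    rw [sum_sub_distrib, sum_sub_distrib]
    ring
  rw [h1]
  have h2 : |∑ A ∈ S, (w A - w' A)| ≤ B :=
    ((abs_sum_le_sum_abs _ _).trans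
      (sum_le_sum_of_subset_of_nonneg (subset_univ S) fun _ _ _ => abs_nonneg _)).trans h
  have h3 : |ρ * ∑ A, (w A - w' A)| ≤ |ρ| * B := by
    rw [abs_mul]
    exact mul_le_mul_of_nonneg_left ((abs_sum_le_sum_abs _ _).trans h) (abs_nonneg _)
  calc |∑ A ∈ S, (w A - w' A) - ρ * ∑ A, (w A - w' A)|
      ≤ |∑ A ∈ S, (w A - w' A)| + |ρ * ∑ A, (w A - w' A)| := abs_sub _ _
    _ ≤ B + |ρ| * B := add_le_add h2 h3
    _ = _ := by ring

lemma atoms_eq {X J : Type} [Fintype X] [DecidableEq X] [Fintype J] [DecidableEq J]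
    (F : J → Finset X) (W : (J → Bool) → ℝ) (S : Finset X) (ρ : ℝ) :
    ∑ A ∈ S, W (fun j => decide (A ∈ F j)) - ρ * ∑ A, W (fun j => decide (A ∈ F j))
      = ∑ σ : J → Bool, W σ *
        ((((univ.filter fun A => (fun j => decide (A ∈ F j)) = σ) ∩ S).card : ℝ)
          - ρ * ((univ.filter fun A => (fun j => decide (A ∈ F j)) = σ).card : ℝ)) := by
  rw [sum_atoms F W S, sum_atoms F W univ, mul_sum, ← sum_sub_distrib]
  refine sum_congr rfl fun σ _ => ?_
  rw [inter_univ]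
  ring

lemma atom_structured {D k r : ℕ} {G J : Type} [AddCommGroup G] [Fintype J] {d N : ℕ}
    (F : J → Finset (Finset (Fin d → Fin N))) (hF : ∀ j, StructuredF D k r G (F j))
    (σ : J → Bool) : StructuredF D k (Fintype.card J * r) (J → G)
      (univ.filter fun A => (fun j => decide (A ∈ F j)) = σ) := by
  classical
  refine combine F hF (fun a => ∀ j, a j ↔ σ j = true) _ fun A => ?_
  simp only [mem_filter, mem_univ, true_and]
  constructor
  · intro h j
    have : decide (A ∈ F j) = σ j := congrFun h j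
    rw [← this, decide_eq_true_eq]
  · intro h
    funext j
    have := h j
    by_cases hA : A ∈ F j
    · rw [decide_eq_true hA, (this.1 hA)]
    · rw [decide_eq_false hA]
      cases hσ : σ j
      · rfl
      · exact absurd (this.2 hσ) hA

/-- the upper estimate -/
lemma upper {D k r s : ℕ} {G : Type} [AddCommGroup G] {M K η : ℝ} (hM : 0 ≤ M) (hη : 0 < η)
    {m : ℕ} (hm : 1 ≤ m) (hmM : 4 * M ^ 2 ≤ η ^ 2 * m) {d N : ℕ}
    (S : Finset (Finset (Fin d → Fin N))) {ρ e : ℝ} (he : 0 ≤ e)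
    (hS : ∀ F, StructuredF D (k + 1) (Fintype.card (Fin s × Fin m) * r) (Fin s × Fin m → G) F →
      ((F ∩ S).card : ℝ) - ρ * F.card ≤ e)
    (f : Fin s → Finset (Fin d → Fin N) → ℝ) (hf : ∀ i, InHull (StructuredF D k r G) M (f i))
    (φ : (Fin s → ℝ) → ℝ) (hφ : ∀ x y, |φ x - φ y| ≤ K * ∑ i, |x i - y i|) (hφ0 : |φ 0| ≤ K)
    (hφp : ∀ x, 0 ≤ φ x) :
    ∑ A ∈ S, φ (fun i => f i A) - ρ * ∑ A, φ (fun i => f i A)
      ≤ 2 ^ (s * m) * (K * (1 + s * M)) * e + (1 + |ρ|) * (K * (s * η) * 2 ^ (N ^ d)) := by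
  classical
  obtain ⟨F, W, h1, h2, h3, h4⟩ := core hM hη hm hmM f hf φ hφ hφ0
  have h5 := diff_le S (fun A => φ (fun i => f i A)) (fun A => W (fun j => decide (A ∈ F j))) ρ _ h4
  have h6 := (abs_le.1 h5).2
  have h7 : ∑ A ∈ S, W (fun j => decide (A ∈ F j)) - ρ * ∑ A, W (fun j => decide (A ∈ F j))
      ≤ 2 ^ (s * m) * (K * (1 + s * M)) * e := by
    rw [atoms_eq]
    have h8 : ∀ σ ∈ (univ : Finset (Fin s × Fin m → Bool)), W σ *
        ((((univ.filter fun A => (fun j => decide (A ∈ F j)) = σ) ∩ S).card : ℝ)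
          - ρ * ((univ.filter fun A => (fun j => decide (A ∈ F j)) = σ).card : ℝ))
        ≤ (K * (1 + s * M)) * e := by
      intro σ _
      refine (mul_le_mul_of_nonneg_left (hS _ (atom_structured F h1 σ)) (h3 hφp σ)).trans ?_
      exact mul_le_mul_of_nonneg_right ((le_abs_self _).trans (h2 σ)) he
    refine (sum_le_sum h8).trans (le_of_eq ?_)
    rw [sum_const, card_univ, nsmul_eq_mul]
    simp only [Fintype.card_pi, Fintype.card_bool, prod_const, card_univ, Fintype.card_prod,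
      Fintype.card_fin]
    push_cast
    ring
  linarith

/-- the two sided estimate -/
lemma two_sided {D k r s : ℕ} {G : Type} [AddCommGroup G] {M K η : ℝ} (hM : 0 ≤ M) (hη : 0 < η)
    {m : ℕ} (hm : 1 ≤ m) (hmM : 4 * M ^ 2 ≤ η ^ 2 * m) {d N : ℕ}
    (S : Finset (Finset (Fin d → Fin N))) {ρ e : ℝ}
    (hS : ∀ F, StructuredF D (k + 1) (Fintype.card (Fin s × Fin m) * r) (Fin s × Fin m → G) F →
      |((F ∩ S).card : ℝ) - ρ * F.card| ≤ e)
    (f : Fin s → Finset (Fin d → Fin N) → ℝ) (hf : ∀ i, InHull (StructuredF D k r G) M (f i))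
    (φ : (Fin s → ℝ) → ℝ) (hφ : ∀ x y, |φ x - φ y| ≤ K * ∑ i, |x i - y i|) (hφ0 : |φ 0| ≤ K) :
    |∑ A ∈ S, φ (fun i => f i A) - ρ * ∑ A, φ (fun i => f i A)|
      ≤ 2 ^ (s * m) * (K * (1 + s * M)) * e + (1 + |ρ|) * (K * (s * η) * 2 ^ (N ^ d)) := by
  classical
  obtain ⟨F, W, h1, h2, -, h4⟩ := core hM hη hm hmM f hf φ hφ hφ0
  have h5 := diff_le S (fun A => φ (fun i => f i A)) (fun A => W (fun j => decide (A ∈ F j))) ρ _ h4
  have hK : 0 ≤ K := (abs_nonneg _).trans hφ0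
  have hB : 0 ≤ K * (1 + s * M) := mul_nonneg hK (by positivity)
  have h7 : |∑ A ∈ S, W (fun j => decide (A ∈ F j)) - ρ * ∑ A, W (fun j => decide (A ∈ F j))|
      ≤ 2 ^ (s * m) * (K * (1 + s * M)) * e := by
    rw [atoms_eq]
    have h8 : ∀ σ ∈ (univ : Finset (Fin s × Fin m → Bool)), |W σ *
        ((((univ.filter fun A => (fun j => decide (A ∈ F j)) = σ) ∩ S).card : ℝ)
          - ρ * ((univ.filter fun A => (fun j => decide (A ∈ F j)) = σ).card : ℝ))|
        ≤ (K * (1 + s * M)) * e := by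
      intro σ _
      rw [abs_mul]
      exact mul_le_mul (h2 σ) (hS _ (atom_structured F h1 σ)) (abs_nonneg _) hB
    refine (abs_sum_le_sum_abs _ _).trans ((sum_le_sum h8).trans (le_of_eq ?_))
    rw [sum_const, card_univ, nsmul_eq_mul]
    simp only [Fintype.card_pi, Fintype.card_bool, prod_const, card_univ, Fintype.card_prod,
      Fintype.card_fin]
    push_cast
    ring
  have h9 := abs_add_le ((∑ A ∈ S, φ (fun i => f i A) - ρ * ∑ A, φ (fun i => f i A))
    - (∑ A ∈ S, W (fun j => decide (A ∈ F j)) - ρ * ∑ A, W (fun j => decide (A ∈ F j))))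
    (∑ A ∈ S, W (fun j => decide (A ∈ F j)) - ρ * ∑ A, W (fun j => decide (A ∈ F j)))
  rw [sub_add_cancel] at h9
  linarith

end Pool.Agent.K4H98.Hull
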