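import Mathlib
import Pool.Agent.K4H98.Hull.Core

set_option autoImplicit false

/-!
# The critical density and the hull of the structured families
-/

namespace Pool.Agent.K4H98.Hull

open Finset Pool.Agent.TH484.PH Pool.Agent.H720R3 Pool.Agent.TH7.DH

lemma exists_m {M η : ℝ} (hη : 0 < η) : ∃ m : ℕ, 1 ≤ m ∧ 4 * M ^ 2 ≤ η ^ 2 * m := by
  obtain ⟨m, hm⟩ := exists_nat_ge (4 * M ^ 2 / η ^ 2)
  refine ⟨m + 1, by omega, ?_⟩
  rw [div_le_iff₀ (by positivity)] at hm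
  push_cast
  have : 0 < η ^ 2 := by positivity
  nlinarith

theorem main (d : ℕ) (hd : 1 ≤ d) : ∃ θd : ℝ, 0 ≤ θd ∧
    θd ≤ ((2 : ℝ) ^ (d - 1) - 1) / (2 ^ d - 1) ∧
    ∀ (D k r s : ℕ) (G : Type) [AddCommGroup G] [Finite G] (M K : ℝ),
      (∀ θ δ : ℝ, θd < θ → 0 < δ → ∃ N₀ : ℕ, ∀ N : ℕ, N₀ ≤ N →
        ∀ (f : Fin s → Finset (Fin d → Fin N) → ℝ) (φ : (Fin s → ℝ) → ℝ)
          (S : Finset (Finset (Fin d → Fin N))),
          (∀ i, InHull (StructuredF D k r G) M (f i)) →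
          (∀ x y, |φ x - φ y| ≤ K * ∑ i, |x i - y i|) → |φ 0| ≤ K → (∀ x, 0 ≤ φ x) →
          δ * (2 : ℝ) ^ (N ^ d) ≤ ∑ A, φ (fun i => f i A) →
          θ * ∑ A, φ (fun i => f i A) ≤ ∑ A ∈ S, φ (fun i => f i A) → GoodF S) ∧
      (∀ ε : ℝ, 0 < ε → ∃ N₀ : ℕ, ∀ N : ℕ, N₀ ≤ N →
        ∃ S : Finset (Finset (Fin d → Fin N)), ¬ GoodF S ∧
          ∀ (f : Fin s → Finset (Fin d → Fin N) → ℝ) (φ : (Fin s → ℝ) → ℝ),
          (∀ i, InHull (StructuredF D k r G) M (f i)) →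
          (∀ x y, |φ x - φ y| ≤ K * ∑ i, |x i - y i|) → |φ 0| ≤ K →
            |∑ A ∈ S, φ (fun i => f i A) - θd * ∑ A, φ (fun i => f i A)|
              ≤ ε * (2 : ℝ) ^ (N ^ d)) := by
  classical
  obtain ⟨θd, h0, h1, h2⟩ := crit d hd
  refine ⟨θd, h0, h1, fun D k r s G _ _ M K => ⟨fun θ δ hθ hδ => ?_, fun ε hε => ?_⟩⟩
  · -- the upper estimate
    obtain ⟨M', hM'⟩ : ∃ M', M' = max M 0 := ⟨_, rfl⟩
    obtain ⟨K', hK'⟩ : ∃ K', K' = max K 1 := ⟨_, rfl⟩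
    have hM0 : 0 ≤ M' := by rw [hM']; exact le_max_right _ _
    have hMM : M ≤ M' := by rw [hM']; exact le_max_left _ _
    have hK0 : 1 ≤ K' := by rw [hK']; exact le_max_right _ _
    have hKK : K ≤ K' := by rw [hK']; exact le_max_left _ _
    obtain ⟨θ0, hθ0⟩ : ∃ θ0, θ0 = (θd + θ) / 2 := ⟨_, rfl⟩
    have hθ1 : θd < θ0 := by linarith
    have hθ2 : θ0 < θ := by linarith
    have hθ3 : 0 ≤ θ0 := by linarith
    obtain ⟨κ, hκ⟩ : ∃ κ, κ = (θ - θ0) * δ := ⟨_, rfl⟩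
    have hκ0 : 0 < κ := by rw [hκ]; exact mul_pos (by linarith) hδ
    have hc1 : 0 < 4 * (1 + |θ0|) * K' * (s + 1) := by positivity
    obtain ⟨η, hη⟩ : ∃ η, η = κ / (4 * (1 + |θ0|) * K' * (s + 1)) := ⟨_, rfl⟩
    have hη0 : 0 < η := by rw [hη]; positivity
    obtain ⟨m, hm, hmM⟩ := exists_m (M := M') hη0
    have hc2 : 0 < 4 * (2 ^ (s * m) * (K' * (1 + s * M'))) := by positivity
    obtain ⟨δ0, hδ0⟩ : ∃ δ0, δ0 = κ / (4 * (2 ^ (s * m) * (K' * (1 + s * M')))) := ⟨_, rfl⟩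
    have hδ1 : 0 < δ0 := by rw [hδ0]; positivity
    obtain ⟨N₀, hN₀⟩ := (h2 D (k + 1) (Fintype.card (Fin s × Fin m) * r)
      (Fin s × Fin m → G)).1 θ0 δ0 hθ1 hδ1
    refine ⟨N₀, fun N hN f φ S hf hφ hφ0 hφp hw hwS => ?_⟩
    by_contra hS
    have hL : (0 : ℝ) < 2 ^ (N ^ d) := by positivity
    have h3 : ∀ F, StructuredF D (k + 1) (Fintype.card (Fin s × Fin m) * r)
        (Fin s × Fin m → G) F → ((F ∩ S).card : ℝ) - θ0 * F.card ≤ δ0 * 2 ^ (N ^ d) := by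
      intro F hF
      by_cases hFc : δ0 * (2 : ℝ) ^ (N ^ d) ≤ F.card
      · have : ¬ (θ0 * F.card ≤ ((F ∩ S).card : ℝ)) := fun h => hS (hN₀ N hN F S hF hFc h)
        push Not at this
        have h4 := mul_pos hδ1 hL
        linarith
      · push Not at hFc
        have h4 : ((F ∩ S).card : ℝ) ≤ F.card := by exact_mod_cast card_le_card inter_subset_left
        have h5 : 0 ≤ θ0 * (F.card : ℝ) := by positivity
        linarith
    have h4 := upper hM0 hη0 hm hmM S (mul_nonneg hδ1.le hL.le) h3 f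
      (fun i => (hf i).mono (fun _ h => h) hMM) φ
      (fun x y => (hφ x y).trans (mul_le_mul_of_nonneg_right hKK
        (sum_nonneg fun _ _ => abs_nonneg _))) (hφ0.trans hKK) hφp
    have h5 : 2 ^ (s * m) * (K' * (1 + s * M')) * (δ0 * 2 ^ (N ^ d)) = κ / 4 * 2 ^ (N ^ d) := by
      have : 2 ^ (s * m) * (K' * (1 + s * M')) * δ0 = κ / 4 := by
        rw [hδ0]
        field_simp
      rw [← mul_assoc, this]
    have h6 : (1 + |θ0|) * (K' * (s * η) * 2 ^ (N ^ d)) ≤ κ / 4 * 2 ^ (N ^ d) := by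
      have h7 : (1 + |θ0|) * (K' * (s * η)) ≤ κ / 4 := by
        have h8 : (1 + |θ0|) * (K' * ((s + 1) * η)) = κ / 4 := by
          rw [hη]
          field_simp
        rw [← h8]
        gcongr
        linarith
      calc (1 + |θ0|) * (K' * (s * η) * 2 ^ (N ^ d))
          = (1 + |θ0|) * (K' * (s * η)) * 2 ^ (N ^ d) := by ring
        _ ≤ _ := mul_le_mul_of_nonneg_right h7 hL.le
    have h7 : κ * 2 ^ (N ^ d) ≤ (θ - θ0) * ∑ A, φ (fun i => f i A) := by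
      rw [hκ, mul_assoc]
      exact mul_le_mul_of_nonneg_left hw (by linarith)
    have h8 := mul_pos hκ0 hL
    nlinarith
  · -- the construction
    obtain ⟨M', hM'⟩ : ∃ M', M' = max M 0 := ⟨_, rfl⟩
    obtain ⟨K', hK'⟩ : ∃ K', K' = max K 1 := ⟨_, rfl⟩
    have hM0 : 0 ≤ M' := by rw [hM']; exact le_max_right _ _
    have hMM : M ≤ M' := by rw [hM']; exact le_max_left _ _
    have hK0 : 1 ≤ K' := by rw [hK']; exact le_max_right _ _
    have hKK : K ≤ K' := by rw [hK']; exact le_max_left _ _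
    obtain ⟨η, hη⟩ : ∃ η, η = ε / (4 * (1 + |θd|) * K' * (s + 1)) := ⟨_, rfl⟩
    have hη0 : 0 < η := by rw [hη]; positivity
    obtain ⟨m, hm, hmM⟩ := exists_m (M := M') hη0
    obtain ⟨δ0, hδ0⟩ : ∃ δ0, δ0 = ε / (4 * (2 ^ (s * m) * (K' * (1 + s * M')))) := ⟨_, rfl⟩
    have hδ1 : 0 < δ0 := by rw [hδ0]; positivity
    obtain ⟨N₀, hN₀⟩ := (h2 D (k + 1) (Fintype.card (Fin s × Fin m) * r)
      (Fin s × Fin m → G)).2 δ0 hδ1
    refine ⟨N₀, fun N hN => ?_⟩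
    obtain ⟨S, hS, hF⟩ := hN₀ N hN
    refine ⟨S, hS, fun f φ hf hφ hφ0 => ?_⟩
    have hL : (0 : ℝ) < 2 ^ (N ^ d) := by positivity
    have h4 := two_sided hM0 hη0 hm hmM S hF f
      (fun i => (hf i).mono (fun _ h => h) hMM) φ
      (fun x y => (hφ x y).trans (mul_le_mul_of_nonneg_right hKK
        (sum_nonneg fun _ _ => abs_nonneg _))) (hφ0.trans hKK)
    have h5 : 2 ^ (s * m) * (K' * (1 + s * M')) * (δ0 * 2 ^ (N ^ d)) = ε / 4 * 2 ^ (N ^ d) := by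
      have : 2 ^ (s * m) * (K' * (1 + s * M')) * δ0 = ε / 4 := by
        rw [hδ0]
        field_simp
      rw [← mul_assoc, this]
    have h6 : (1 + |θd|) * (K' * (s * η) * 2 ^ (N ^ d)) ≤ ε / 4 * 2 ^ (N ^ d) := by
      have h7 : (1 + |θd|) * (K' * (s * η)) ≤ ε / 4 := by
        have h8 : (1 + |θd|) * (K' * ((s + 1) * η)) = ε / 4 := by
          rw [hη]
          field_simp
        rw [← h8]
        gcongr
        linarith
      calc (1 + |θd|) * (K' * (s * η) * 2 ^ (N ^ d))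
          = (1 + |θd|) * (K' * (s * η)) * 2 ^ (N ^ d) := by ring
        _ ≤ _ := mul_le_mul_of_nonneg_right h7 hL.le
    have h8 := mul_pos hε hL
    linarith

end Pool.Agent.K4H98.Hull
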