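import Mathlib
import Pool.Agent.K4H98.Hull.Main
import Pool.Agent.R158.SN.Norm

set_option autoImplicit false

/-!
# Convolutions of families lie in the hull of the parities
-/

namespace Pool.Agent.K4H98.Hull

open Finset Pool.Agent.R158.SN
open Pool.Agent.TH484.PH (poly StructuredF GoodF)

lemma inHull_of_fintype {X ι : Type} [Fintype X] [DecidableEq X] [Fintype ι]
    {P : Finset X → Prop} {M : ℝ} (F : ι → Finset X) (b : ι → ℝ) (hF : ∀ i, P (F i))
    (hM : ∑ i, |b i| ≤ M) (f : X → ℝ) (hf : ∀ A, f A = ∑ i, if A ∈ F i then b i else 0) :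
    InHull P M f := by
  classical
  set e := (Fintype.equivFin ι).symm with he
  refine ⟨Fintype.card ι, fun i => F (e i), fun i => b (e i), fun i => hF _, ?_, fun A => ?_⟩
  · rw [e.sum_comp (fun i => |b i|)]
    exact hM
  · rw [hf, e.sum_comp (fun i => if A ∈ F i then b i else 0)]

/-- the family of the sets which meet `χ` in an even number of elements -/
lemma structured_even {d N : ℕ} (hd : 1 ≤ d) (χ : Finset (Fin d → Fin N)) :
    StructuredF 1 0 0 (ZMod 2) (univ.filter fun A : Finset (Fin d → Fin N) =>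
      Even (A ∩ χ).card) := by
  refine ⟨fun i => i.elim0, fun T => if T.card = 1 ∧ T ⊆ χ then 1 else 0, fun _ g => g = 0,
    fun i => i.elim0, fun T hT x hx y hy => ?_, fun A => ?_⟩
  · have h1 : T.card = 1 ∧ T ⊆ χ := by
      by_contra h
      exact hT (if_neg h)
    obtain ⟨z, rfl⟩ := card_eq_one.1 h1.1
    rw [mem_singleton] at hx hy
    subst hx
    subst hy
    exact ⟨⟨0, hd⟩, ⟨0, hd⟩, rfl⟩
  · have h2 : poly 1 (fun T => if T.card = 1 ∧ T ⊆ χ then (1 : ZMod 2) else 0) A
        = (((A ∩ χ).card : ℕ) : ZMod 2) := by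
      unfold poly
      rw [← sum_filter, sum_const, nsmul_eq_mul, mul_one]
      congr 1
      have h1 : ((A ∩ χ).image (fun x => ({x} : Finset (Fin d → Fin N)))).card = (A ∩ χ).card :=
        card_image_of_injective _ singleton_injective
      rw [← h1]
      congr 1
      ext T
      simp only [mem_filter, mem_powerset, mem_image, mem_inter]
      constructor
      · rintro ⟨⟨hTA, -⟩, hT1, hTX⟩
        obtain ⟨x, rfl⟩ := card_eq_one.1 hT1
        exact ⟨x, ⟨singleton_subset_iff.1 hTA, singleton_subset_iff.1 hTX⟩, rfl⟩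
      · rintro ⟨x, ⟨hxA, hxX⟩, rfl⟩
        exact ⟨⟨singleton_subset_iff.2 hxA, (card_singleton x).le⟩, card_singleton x,
          singleton_subset_iff.2 hxX⟩
    rw [h2, mem_filter]
    exact ⟨fun h => ZMod.natCast_eq_zero_iff_even.2 h.2,
      fun h => ⟨mem_univ _, ZMod.natCast_eq_zero_iff_even.1 h⟩⟩

lemma structured_univ {d N : ℕ} : StructuredF 1 0 0 (ZMod 2)
    (univ : Finset (Finset (Fin d → Fin N))) :=
  ⟨fun i => i.elim0, fun _ => 0, fun _ _ => True, fun i => i.elim0, fun T hT => (hT rfl).elim,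
    fun A => by simp⟩

/-- combinations of parities are in the hull -/
lemma hull_of_spec {d N : ℕ} (hd : 1 ≤ d) {M : ℝ} {g : Finset (Fin d → Fin N) → ℝ}
    (hg : Spec M g) : InHull (StructuredF 1 0 0 (ZMod 2)) (3 * M) g := by
  obtain ⟨c, h1, h2⟩ := hg
  refine inHull_of_fintype (ι := Option (Finset (Fin d → Fin N)))
    (fun i => match i with
      | none => univ
      | some χ => univ.filter fun A : Finset (Fin d → Fin N) => Even (A ∩ χ).card)
    (fun i => match i with
      | none => - ∑ χ, c χ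
      | some χ => 2 * c χ) ?_ ?_ g ?_
  · intro i
    match i with
    | none => exact structured_univ
    | some χ => exact structured_even hd χ
  · rw [Fintype.sum_option]
    simp only [abs_neg, abs_mul, abs_two]
    rw [← mul_sum]
    have := abs_sum_le_sum_abs c univ
    linarith
  · intro A
    rw [Fintype.sum_option, h1]
    simp only [mem_univ, if_true, mem_filter, true_and]
    rw [neg_add_eq_sub, ← sum_sub_distrib]
    refine sum_congr rfl fun χ _ => ?_
    rw [sg_even]
    split_ifs <;> ring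

/-- the normalised number of representations of `X` as `A ∆ B`, `A ∈ T`, `B ∈ T'` -/
noncomputable def conv {E : Type} [Fintype E] [DecidableEq E] (T T' : Finset (Finset E))
    (X : Finset E) : ℝ :=
  ((((T ×ˢ T').filter fun p => symmDiff p.1 p.2 = X).card : ℕ) : ℝ) / 2 ^ Fintype.card E

lemma sg_symm {E : Type} [DecidableEq E] (χ A : Finset E) : sg χ A = sg A χ := by
  unfold Pool.Agent.R158.SN.sg
  rw [inter_comm]

lemma conv_spec {E : Type} [Fintype E] [DecidableEq E] (T T' : Finset (Finset E)) :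
    Spec 1 (conv T T') := by
  classical
  set L : ℝ := 2 ^ Fintype.card E with hL
  have hL0 : 0 < L := by positivity
  set a : Finset E → ℝ := fun χ => ∑ A ∈ T, 1 * sg A χ with ha
  set b : Finset E → ℝ := fun χ => ∑ A ∈ T', 1 * sg A χ with hb
  have hcard : ∀ U : Finset (Finset E), (U.card : ℝ) ≤ L := by
    intro U
    have h1 : U.card ≤ Fintype.card (Finset E) := card_le_univ U
    rw [Fintype.card_finset] at h1
    rw [hL]
    exact_mod_cast h1
  have ha2 : ∑ χ, a χ ^ 2 = L * T.card := by
    rw [parseval T (fun _ => 1), ← hL]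
    simp
  have hb2 : ∑ χ, b χ ^ 2 = L * T'.card := by
    rw [parseval T' (fun _ => 1), ← hL]
    simp
  refine ⟨fun χ => a χ * b χ / L ^ 2, fun X => ?_, ?_⟩
  · have h1 : ∀ χ, a χ * b χ / L ^ 2 * sg χ X
        = (∑ A ∈ T, ∑ B ∈ T', sg (symmDiff A B) χ * sg X χ) / L ^ 2 := by
      intro χ
      simp only [ha, hb, one_mul]
      rw [sum_mul_sum, div_mul_eq_mul_div, sum_mul]
      congr 1
      refine sum_congr rfl fun A _ => ?_
      rw [sum_mul]
      refine sum_congr rfl fun B _ => ?_
      rw [sg_mul, sg_symm χ X]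
    rw [sum_congr rfl fun χ _ => h1 χ, ← sum_div, sum_comm]
    have h2 : ∀ A ∈ T, ∑ χ, ∑ B ∈ T', sg (symmDiff A B) χ * sg X χ
        = ∑ B ∈ T', if symmDiff A B = X then L else 0 := by
      intro A _
      rw [sum_comm]
      exact sum_congr rfl fun B _ => sum_sg_mul _ _
    rw [sum_congr rfl h2, ← sum_product' (f := fun A B => if symmDiff A B = X then L else 0),
      ← sum_filter, sum_const, nsmul_eq_mul]
    unfold conv
    rw [← hL]
    field_simp
  · have h1 : ∀ χ ∈ (univ : Finset (Finset E)), |a χ * b χ / L ^ 2|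
        ≤ (a χ ^ 2 + b χ ^ 2) / (2 * L ^ 2) := by
      intro χ _
      rw [abs_div, abs_of_pos (by positivity : (0 : ℝ) < L ^ 2), abs_mul, div_le_div_iff₀
        (by positivity) (by positivity)]
      have h2 : 2 * (|a χ| * |b χ|) ≤ a χ ^ 2 + b χ ^ 2 := by
        have := sq_nonneg (|a χ| - |b χ|)
        have h3 := sq_abs (a χ)
        have h4 := sq_abs (b χ)
        nlinarith
      have h3 : 0 ≤ L ^ 2 := by positivity
      calc |a χ| * |b χ| * (2 * L ^ 2) = (2 * (|a χ| * |b χ|)) * L ^ 2 := by ring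
        _ ≤ (a χ ^ 2 + b χ ^ 2) * L ^ 2 := mul_le_mul_of_nonneg_right h2 h3
    refine (sum_le_sum h1).trans ?_
    rw [← sum_div, sum_add_distrib, ha2, hb2, div_le_one (by positivity)]
    have h2 := hcard T
    have h3 := hcard T'
    nlinarith

lemma conv_nonneg {E : Type} [Fintype E] [DecidableEq E] (T T' : Finset (Finset E))
    (X : Finset E) : 0 ≤ conv T T' X := by
  unfold conv
  positivity

lemma sum_conv {E : Type} [Fintype E] [DecidableEq E] (T T' S : Finset (Finset E)) :
    ∑ X ∈ S, conv T T' X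
      = (((T ×ˢ T').filter fun p => symmDiff p.1 p.2 ∈ S).card : ℝ) / 2 ^ Fintype.card E := by
  classical
  unfold conv
  rw [← sum_div]
  congr 1
  rw [card_eq_sum_card_fiberwise (s := (T ×ˢ T').filter fun p => symmDiff p.1 p.2 ∈ S)
    (f := fun p => symmDiff p.1 p.2) (t := S) (fun p hp => (mem_filter.1 hp).2)]
  push_cast
  refine sum_congr rfl fun X hX => ?_
  congr 2
  ext p
  simp only [mem_filter]
  constructor
  · rintro ⟨h1, h2⟩
    exact ⟨⟨h1, by rw [h2]; exact hX⟩, h2⟩
  · rintro ⟨⟨h1, -⟩, h2⟩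
    exact ⟨h1, h2⟩

end Pool.Agent.K4H98.Hull
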